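import Pool.Agent.N489.DD.FinT
import Pool.Agent.N489.DD.SETF
import Pool.Agent.N489.DD.STAR3
import Pool.Agent.N489.RW.Sn
import Pool.Agent.N489.RW.MF
import Pool.Agent.N489.RW.BF
import Pool.Agent.N489.RW.FLOW
import Pool.Agent.N489.RW.UNF
import Pool.Agent.N489.RW.CGS
import Pool.Agent.N489.RW.PSI
import Pool.Agent.N489.RW.SEL
import Pool.Agent.N489.RW.LFT
import Pool.Agent.N489.RW.COR
import Pool.Agent.N489.RW.PHI
import Pool.Agent.N489.RW.SIM
import Pool.Agent.N489.RW.EE
import Pool.Agent.N489.RW.NCP
import Pool.Agent.N489.RW.DIM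
import Pool.Agent.N489.RW.DBL
import Pool.Agent.N489.RW.UNT1
import Pool.Agent.N489.RW.UNT
import Pool.Agent.N489.RW.NT
import Pool.Agent.N489.RW.SPT
import Pool.Agent.Y467.GE.MG

/-!
# Short periodic geodesics of metrics with a circle symmetry: the bound by the distance from `F`

`X` is a compact metric space in which any two points are joined by a minimal geodesic and minimal
geodesics between points at distance less than `r` are unique (every closed Riemannian manifold).
A group `G` acts on `X` by isometries and fixes the points of the closed set `F`; near `F` it acts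
transitively on the normal spheres (`NT`): there are `w : V → ℝ^(k+1)`, continuous on the
neighbourhood `V` of radius `r` of `F`, vanishing exactly on `F`, such that the directions of
`w` on the orbit of every point outside `F` fill up the unit sphere `S^k`, with a continuous section,
and an element `σ` of `G` acting as an involution with `w (σ x) = - w x`. (Example: a circle acting
by isometries on a closed manifold, `F` the union of some or all components of codimension `2` of
its fixed point set, with trivial normal bundle, `σ = -1`; or the unit quaternions and codimension `4`.)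

1. Let `K` be a compact metric space of covering dimension at most `q`, `q ≥ 1`, `f : K → X`
   continuous and all points `f k` at distance at most `R` from `F`. Then `X` has a periodic geodesic
   of length at most `4 q R`, or there is a continuous map `g : K → F` whose restriction to
   `f⁻¹(F)` is homotopic in `F` to `f` (`Defo`).
2. Every metric on the sphere `S^n`, `n = k + 2 ≥ 2`, which is invariant under the rotations
   in the plane of the last two coordinates, and all of whose points are at distance at most `R`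
   from the fixed points, has a periodic geodesic of length at most `4 (n - 1) R` (on `S^3` : `8 R`),
   however large its diameter is.
-/

set_option autoImplicit false

open Set Topology

namespace Pool.Agent.Results.MP_3eff7f_gt.CircleDistance

open Pool.Agent.Y489.GE Pool.Agent.R203.IF Pool.Agent.N489.RW Pool.Agent.N489.DD

theorem general (X G : Type) [MetricSpace X] [CompactSpace X] [Group G] [MulAction G X] (k : ℕ)
    (F : Set X) (σ : G) (w : X → Eu k) (V : Set X) (r R : ℝ) (q : ℕ) (hr : 0 < r)
    (hX : GeodSpace X) (hU : UniqGeod X r) (hT : NT X G k F σ w V r)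
    (hq : 1 ≤ q) (K : Type) [MetricSpace K] [CompactSpace K]
    (hK : CovDim K q) (f : K → X) (hf : Continuous f) (hR : ∀ k, ∃ z ∈ F, dist z (f k) ≤ R)
    (hdefo : ¬ Defo F f) : ClosedGeod X (4 * q * R) := by
  obtain ⟨m, hm⟩ := Pool.Agent.Y467.GE.t_MG X r hr hX hU
  have hr2 : 0 < r / 2 := by linarith
  have hr2' : r / 2 < r := by linarith
  have hTS : TS X G F σ (r / 2) := t_NT t_NC X G k F σ w V r (r / 2) m hT hX hU hm hr2 hr2'
  have hU2 : UniqGeod X (r / 2) := fun x y z w h => hU x y z w (h.trans hr2')
  refine mainT3 t_MF t_DBL (t_UNT t_UNT1) ?_ X G F σ (r / 2) R q hr2 hX hU2 hTS hq K hK f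
    hf hR hdefo
  intro X _ _ ρ U r D q hr hX hU hM hq K _ _ hK f hf hfU hD hdefo
  exact main3 Pool.Agent.Y467.GE.t_MG t_SETF t_MF t_BF t_FLOW t_UNF t_CGS t_PSI
    (t_PHI t_SEL t_LFT t_COR) (t_EE t_SIM) t_STAR3 X ρ U r D q hr hX hU hM hq K hK f hf
    hfU hD hdefo

/-- the relative form -/
def General : Prop := ∀ (X G : Type) [MetricSpace X] [CompactSpace X] [Group G] [MulAction G X]
  (k : ℕ) (F : Set X) (σ : G) (w : X → Eu k) (V : Set X) (r R : ℝ), 0 < r →
  GeodSpace X → UniqGeod X r → NT X G k F σ w V r →
  ∀ (q : ℕ) (K : Type) [MetricSpace K] [CompactSpace K] (f : K → X), 1 ≤ q → CovDim K q →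
  Continuous f → (∀ k, ∃ z ∈ F, dist z (f k) ≤ R) → ClosedGeod X (4 * q * R) ∨ Defo F f

/-- the circle acts on `X` by rotations of the last two coordinates of the unit sphere of
`ℝ^(k+3)` -/
structure Rotn {X : Type} [MetricSpace X] [MulAction Circle X] {k : ℕ} (e : X ≃ₜ Sn (k + 2)) :
    Prop where
  init : ∀ (u : Circle) (x : X) (i : Fin (k + 1)),
    (e (u • x)).1 i.castSucc.castSucc = (e x).1 i.castSucc.castSucc
  rot : ∀ (u : Circle) (x : X),
    ((e (u • x)).1 (Fin.last (k + 1)).castSucc : ℂ) +
        ((e (u • x)).1 (Fin.last (k + 2)) : ℂ) * Complex.I =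
      (u : ℂ) * (((e x).1 (Fin.last (k + 1)).castSucc : ℂ) +
        ((e x).1 (Fin.last (k + 2)) : ℂ) * Complex.I)

/-- spheres of dimension `k + 2` -/
def Spheres : Prop := ∀ (X : Type) [MetricSpace X] [CompactSpace X] [MulAction Circle X] (k : ℕ)
  (e : X ≃ₜ Sn (k + 2)) (r R : ℝ), Rotn e →
  (∀ (u : Circle) (x y : X), dist (u • x) (u • y) = dist x y) →
  0 < r → GeodSpace X → UniqGeod X r →
  (∀ x : X, ∃ z : X, (∀ u : Circle, u • z = z) ∧ dist z x ≤ R) →
  ClosedGeod X (4 * (k + 1 : ℕ) * R)

theorem result : General ∧ Spheres := by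
  refine ⟨?_, ?_⟩
  · intro X G _ _ _ _ k F σ w V r R hr hX hU hT q K _ _ f hq hK hf hR
    by_contra h
    push Not at h
    exact h.1 (general X G k F σ w V r R q hr hX hU hT hq K hK f hf hR h.2)
  · intro X _ _ _ k e₀ r R hR hiso hr hX hU hfar
    obtain ⟨e, he⟩ : ∃ e : X ≃ₜ ↥(Metric.sphere (0 : Eu (k + 2)) 1),
        ∀ x i, (e x).1 i = (e₀ x).1 i := ⟨e₀.trans (hSn (k + 2)), fun x i => rfl⟩
    have hS : SphC X k e := ⟨fun u x i => by rw [he, he, hR.init], fun u x => by
      rw [he, he, he, he, hR.rot]⟩
    have hfx : ∀ z : X, (∀ u : Circle, u • z = z) → z ∈ FxC e := by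
      intro z hz
      have h1 := hS.rot (-1) z
      rw [hz (-1)] at h1
      have h2 := congrArg Complex.re h1
      have h3 := congrArg Complex.im h1
      simp at h2 h3
      exact ⟨by linarith, by linarith⟩
    obtain ⟨-, hw, K, hKm, f, hKc, hK, hf, hdefo⟩ := SPT.t_SPT t_NC DIM.t_DIM X k e hS hiso
    obtain ⟨w, hw⟩ := hw r
    exact general X Circle 1 (FxC e) (-1) w univ r R (k + 1) hr hX hU hw
      (by omega) K hK f hf (fun y => by
        obtain ⟨z, hz1, hz2⟩ := hfar (f y)
        exact ⟨z, hfx z hz1, hz2⟩)
      hdefo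

end Pool.Agent.Results.MP_3eff7f_gt.CircleDistance
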