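import Pool.Agent.N489.DD.Fin
import Pool.Agent.N489.DD.SETF
import Pool.Agent.N489.DD.STAR3
import Pool.Agent.N489.RW.Cor
import Pool.Agent.N489.RW.Sn
import Pool.Agent.N489.RW.MF
import Pool.Agent.N489.RW.BF
import Pool.Agent.N489.RW.FLOW
import Pool.Agent.N489.RW.UNF
import Pool.Agent.N489.RW.CGS
import Pool.Agent.N489.RW.PSI
import Pool.Agent.N489.RW.SEL
import Pool.Agent.N489.RW.LFT
import Pool.Agent.N489.RW.COR
import Pool.Agent.N489.RW.PHI
import Pool.Agent.N489.RW.SIM
import Pool.Agent.N489.RW.EE
import Pool.Agent.N489.RW.NCP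
import Pool.Agent.N489.RW.DIM
import Pool.Agent.Y467.GE.MG

/-!
# Short periodic geodesics of metrics with a reflection: the bound by the displacement

`X` is a compact metric space in which any two points are joined by a minimal geodesic and minimal
geodesics between points at distance less than `r` are unique (every closed Riemannian manifold).
Let `ρ` be an isometric involution of `X` whose fixed point set `F` separates: there is a closed set
`U` with `U ∪ ρ U = X` and `U ∩ ρ U = F` (`Mirror`; on a closed simply connected manifold every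
isometric involution with a fixed hypersurface is of this kind). Nothing is assumed about `F`.
`SymGeod X ρ L`: there is a periodic geodesic of length at most `L` with `γ (-t) = ρ (γ t)`; it
consists of a chord from `F` to `F`, orthogonal to `F` at its end points, and of its mirror image.

1. Let `K` be a compact metric space of covering dimension at most `q`, `q ≥ 1`, let `f : K → U` be
   continuous and `d(f k, ρ(f k)) ≤ δ` for all `k`. If there is no periodic geodesic as above of
   length at most `2 q δ`, then there is a continuous map `g : K → F` whose restriction to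
   `A = f⁻¹(F)` is homotopic in `F` to `f` (`Defo`).
2. If `U` has covering dimension at most `n`, `F` is not a retract of `U` up to homotopy (this
   holds for all closed `n`-manifolds `X`, since `[F] = 0` in the homology of `U`) and the
   displacement `d(x, ρ x)` is at most `δ` everywhere, there is a periodic geodesic of length at
   most `2 n δ`.
3. Every metric on the sphere `S^n`, `n = k + 1`, which is invariant under the reflection `ρ` in
   the equator and has `d(x, ρ x) ≤ δ` for all `x` has a periodic geodesic of length at most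
   `2 n δ`, however large its diameter and the diameter of the equator are. In particular `2 n diam`
   is a bound.
-/

set_option autoImplicit false

open Set Topology

namespace Pool.Agent.Results.MP_3eff7f_gt.ReflectionDisplacement

open Pool.Agent.Y489.GE Pool.Agent.R203.IF Pool.Agent.N489.RW Pool.Agent.N489.DD

theorem general (X : Type) [MetricSpace X] [CompactSpace X] (ρ : X → X) (U : Set X)
    (r δ : ℝ) (q : ℕ) (hr : 0 < r) (hX : GeodSpace X) (hU : UniqGeod X r) (hM : Mirror X ρ U)
    (hq : 1 ≤ q) (K : Type) [MetricSpace K]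
    [CompactSpace K] (hK : CovDim K q) (f : K → X) (hf : Continuous f) (hfU : ∀ k, f k ∈ U)
    (hD : ∀ k, dist (f k) (ρ (f k)) ≤ δ)
    (hdefo : ¬ Defo {x | ρ x = x} f) : SymGeod X ρ (2 * q * δ) := by
  have hMF := t_MF X ρ U r hM hX hU
  have h := main3 Pool.Agent.Y467.GE.t_MG t_SETF t_MF t_BF t_FLOW t_UNF t_CGS t_PSI
    (t_PHI t_SEL t_LFT t_COR) (t_EE t_SIM) t_STAR3 X ρ U r (δ / 2) q hr hX hU hM hq K hK f hf
    hfU (fun k => by
      obtain ⟨z, hz1, hz2⟩ := hMF.cross (f k) (hfU k) (f k) (hfU k)
      have h1 : dist z (ρ (f k)) = dist z (f k) := by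
        rw [← hM.iso.dist_eq z (f k), hz1]
      rw [h1, dist_comm (f k) z] at hz2
      exact ⟨z, hz1, by linarith [hD k]⟩) hdefo
  have h2 : 4 * (q : ℝ) * (δ / 2) = 2 * q * δ := by ring
  rwa [h2] at h

/-- the relative form -/
def General : Prop := ∀ (X : Type) [MetricSpace X] [CompactSpace X] (ρ : X → X) (U : Set X)
  (r δ : ℝ), 0 < r → GeodSpace X → UniqGeod X r → Mirror X ρ U →
  ∀ (q : ℕ) (K : Type) [MetricSpace K] [CompactSpace K] (f : K → X),
  1 ≤ q → CovDim K q → Continuous f → (∀ k, f k ∈ U) → (∀ k, dist (f k) (ρ (f k)) ≤ δ) →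
  SymGeod X ρ (2 * q * δ) ∨ Defo {x | ρ x = x} f

/-- the case of the inclusion of `U` -/
def Whole : Prop := ∀ (X : Type) [MetricSpace X] [CompactSpace X] (ρ : X → X) (U : Set X)
  (r δ : ℝ), 0 < r → GeodSpace X → UniqGeod X r → Mirror X ρ U →
  (∀ x, dist x (ρ x) ≤ δ) → ∀ n : ℕ, 1 ≤ n → CovDim ↥U n → ¬ Ret ρ U → SymGeod X ρ (2 * n * δ)

/-- `ρ` corresponds to the reflection of the unit sphere of `ℝ^(k+2)` in the last coordinate -/
structure Refl {X : Type} [MetricSpace X] {k : ℕ} (e : X ≃ₜ Sn (k + 1)) (ρ : X → X) : Prop where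
  init : ∀ (x : X) (i : Fin (k + 1)), (e (ρ x)).1 i.castSucc = (e x).1 i.castSucc
  last : ∀ x : X, (e (ρ x)).1 (Fin.last (k + 1)) = - (e x).1 (Fin.last (k + 1))

/-- spheres of dimension `k + 1` -/
def Spheres : Prop := ∀ (X : Type) [MetricSpace X] [CompactSpace X] (k : ℕ)
  (e : X ≃ₜ Sn (k + 1)) (ρ : X → X) (r δ : ℝ), Refl e ρ → Isometry ρ →
  0 < r → GeodSpace X → UniqGeod X r → (∀ x, dist x (ρ x) ≤ δ) →
  SymGeod X ρ (2 * (k + 1 : ℕ) * δ)

theorem result : General ∧ Whole ∧ Spheres := by
  refine ⟨?_, ?_, ?_⟩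
  · intro X _ _ ρ U r δ hr hX hU hM q K _ _ f hq hK hf hfU hD
    by_contra h
    push Not at h
    exact h.1 (general X ρ U r δ q hr hX hU hM hq K hK f hf hfU hD h.2)
  · intro X _ _ ρ U r δ hr hX hU hM hD n hn hdim hret
    have : CompactSpace ↥U := isCompact_iff_compactSpace.1 hM.closed.isCompact
    exact general X ρ U r δ n hr hX hU hM hn ↥U hdim (fun x => x.1)
      continuous_subtype_val (fun x => x.2) (fun x => hD x.1) fun h => hret (ret_of_defo hM h)
  · intro X _ _ k e₀ ρ r δ hR hρ hr hX hU hD
    obtain ⟨e, he⟩ : ∃ e : X ≃ₜ ↥(Metric.sphere (0 : Eu (k + 1)) 1),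
        ∀ x i, (e x).1 i = (e₀ x).1 i := ⟨e₀.trans (hSn (k + 1)), fun x i => rfl⟩
    have hS : Sph X k ρ e := ⟨fun x i => by rw [he, he, hR.init], fun x => by
      rw [he, he, hR.last]⟩
    obtain ⟨hM, hdim, hret⟩ := DIM.t_SPH t_NC DIM.t_DIM X k ρ e hS hρ
    have : CompactSpace ↥(Up e) := isCompact_iff_compactSpace.1 hM.closed.isCompact
    exact general X ρ (Up e) r δ (k + 1) hr hX hU hM (by omega) ↥(Up e) hdim
      (fun x => x.1) continuous_subtype_val (fun x => x.2) (fun x => hD x.1)
      fun h => hret (ret_of_defo hM h)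

end Pool.Agent.Results.MP_3eff7f_gt.ReflectionDisplacement
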